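import Mathlib
import Pool.Agent.Helper67.VF.RF

/-!
# RF-RKB: the start of the induction
-/

set_option autoImplicit false

namespace Pool.Agent.Helper13.RKB

open Pool.Agent.Helper27.VF Pool.Agent.Helper67.RF

universe u

/-- functions on the cosets modulo 2 -/
def Fm {A : Type u} [Group A] (L : Subgroup A) : Type u := (A ⧸ L) → ZMod 2

instance {A : Type u} [Group A] (L : Subgroup A) : AddCommGroup (Fm L) :=
  inferInstanceAs (AddCommGroup ((A ⧸ L) → ZMod 2))

instance {A : Type u} [Group A] (L : Subgroup A) [L.FiniteIndex] : Finite (Fm L) :=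
  inferInstanceAs (Finite ((A ⧸ L) → ZMod 2))

instance {A : Type u} [Group A] (L : Subgroup A) : Nontrivial (Fm L) :=
  inferInstanceAs (Nontrivial ((A ⧸ L) → ZMod 2))

instance {A : Type u} [Group A] (L : Subgroup A) : DistribMulAction A (Fm L) where
  smul a φ := fun c => φ (a⁻¹ • c)
  one_smul φ := by
    funext c
    show φ ((1 : A)⁻¹ • c) = φ c
    rw [inv_one, one_smul]
  mul_smul a b φ := by
    funext c
    show φ ((a * b)⁻¹ • c) = φ (b⁻¹ • a⁻¹ • c)
    rw [mul_inv_rev, mul_smul]
  smul_zero a := rfl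
  smul_add a φ ψ := rfl

theorem Fm_smul {A : Type u} [Group A] (L : Subgroup A) (a : A) (φ : Fm L) (c : A ⧸ L) :
    (a • φ) c = φ (a⁻¹ • c) := rfl

theorem fix_card {A : Type u} [Group A] (N : Subgroup A) [N.Normal] [N.FiniteIndex] (g : A)
    (hg : g ∉ N) : Nat.card {m : Fm N // g • m = m} ^ 2 ≤ Nat.card (Fm N) := by
  classical
  let r := MulAction.orbitRel (Subgroup.zpowers g) (A ⧸ N)
  let T : Set (A ⧸ N) := {x | (Quotient.mk r x).out = x}
  have hconst : ∀ m : Fm N, g • m = m → ∀ x y : A ⧸ N, (Quotient.mk r x = Quotient.mk r y) →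
      m x = m y := by
    intro m hm x y hxy
    have h1 : r x y := Quotient.exact hxy
    obtain ⟨z, hz⟩ := h1
    have h2 : (z : A) ∈ MulAction.stabilizer A m := by
      have h3 : Subgroup.zpowers g ≤ MulAction.stabilizer A m := by
        rw [Subgroup.zpowers_le]
        exact hm
      exact h3 z.2
    have h4 : (z : A)⁻¹ • m = m := by
      have := inv_mem h2
      exact this
    have h5 : x = (z : A) • y := hz.symm
    rw [h5]
    have h6 := congrFun h4 y
    rw [Fm_smul, inv_inv] at h6
    exact h6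
  have hne : ∀ x : A ⧸ N, g • x ≠ x := by
    intro x
    induction x using QuotientGroup.induction_on with
    | H a =>
      intro h
      have h1 : ((g * a : A) : A ⧸ N) = (a : A ⧸ N) := h
      rw [QuotientGroup.eq] at h1
      apply hg
      have h2 := (inferInstance : N.Normal).conj_mem _ h1 (g * a)
      have h3 : g * a * ((g * a)⁻¹ * a) * (g * a)⁻¹ = g⁻¹ := by group
      rw [h3] at h2
      exact inv_mem_iff.1 h2
  have hgo : ∀ x : A ⧸ N, Quotient.mk r (g • x) = Quotient.mk r x := by
    intro x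
    apply Quotient.sound
    exact ⟨⟨g, Subgroup.mem_zpowers g⟩, rfl⟩
  rw [pow_two, ← Nat.card_prod]
  let F : {m : Fm N // g • m = m} × {m : Fm N // g • m = m} → Fm N :=
    fun q => fun x => if x ∈ T then q.1.1 x else q.2.1 x
  refine Nat.card_le_card_of_injective F ?_
  rintro ⟨⟨a, ha⟩, ⟨b, hb⟩⟩ ⟨⟨c, hc⟩, ⟨d, hd⟩⟩ h
  have hF : ∀ x : A ⧸ N, (if x ∈ T then a x else b x) = (if x ∈ T then c x else d x) :=
    fun x => congrFun h x
  have hac : a = c := by
    funext x
    have h1 : Quotient.mk r x = Quotient.mk r ((Quotient.mk r x).out) :=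
      (Quotient.out_eq (Quotient.mk r x)).symm
    rw [hconst a ha _ _ h1, hconst c hc _ _ h1]
    have h2 : (Quotient.mk r x).out ∈ T := by
      show (Quotient.mk r ((Quotient.mk r x).out)).out = (Quotient.mk r x).out
      rw [← h1]
    have h3 := hF ((Quotient.mk r x).out)
    rwa [if_pos h2, if_pos h2] at h3
  have hbd : b = d := by
    funext x
    have h1 : Quotient.mk r x = Quotient.mk r (g • (Quotient.mk r x).out) := by
      rw [hgo, Quotient.out_eq]
    rw [hconst b hb _ _ h1, hconst d hd _ _ h1]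
    have h2 : g • (Quotient.mk r x).out ∉ T := by
      intro h4
      have h5 : (Quotient.mk r (g • (Quotient.mk r x).out)).out = g • (Quotient.mk r x).out := h4
      rw [← h1] at h5
      exact hne _ h5.symm
    have h3 := hF (g • (Quotient.mk r x).out)
    rwa [if_neg h2, if_neg h2] at h3
  subst hac hbd
  rfl

theorem der_inj {A : Type u} [Group A] (S : Set A) (hS : Subgroup.closure S = ⊤) {M : Type u}
    [AddCommGroup M] [DistribMulAction A M] :
    Function.Injective (fun (δ : {δ : A → M // IsDer δ}) (s : S) => δ.1 s) := by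
  intro δ ε h
  apply Subtype.ext
  have hone : ∀ γ : A → M, IsDer γ → γ 1 = 0 := by
    intro γ hγ
    have h1 := hγ 1 1
    rw [mul_one, one_smul] at h1
    exact left_eq_add.1 h1
  let E : Subgroup A :=
    { carrier := {a | δ.1 a = ε.1 a}
      mul_mem' := by
        intro a b ha hb
        show δ.1 (a * b) = ε.1 (a * b)
        rw [δ.2 a b, ε.2 a b, show δ.1 a = ε.1 a from ha, show δ.1 b = ε.1 b from hb]
      one_mem' := by
        show δ.1 1 = ε.1 1
        rw [hone _ δ.2, hone _ ε.2]
      inv_mem' := by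
        intro a ha
        show δ.1 a⁻¹ = ε.1 a⁻¹
        have h1 := δ.2 a a⁻¹
        have h2 := ε.2 a a⁻¹
        rw [mul_inv_cancel, hone _ δ.2] at h1
        rw [mul_inv_cancel, hone _ ε.2] at h2
        have h3 : δ.1 a = ε.1 a := ha
        rw [h1, h3] at h2
        have h4 : a • δ.1 a⁻¹ = a • ε.1 a⁻¹ := add_left_cancel h2
        exact smul_left_cancel a h4 }
  have hE : E = ⊤ := by
    rw [eq_top_iff, ← hS, Subgroup.closure_le]
    intro s hs
    exact congrFun h ⟨s, hs⟩
  funext a
  have : a ∈ E := by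
    rw [hE]
    exact Subgroup.mem_top a
  exact this

theorem rkb : RkbStmt.{u} := by
  intro A _ hfg hres
  classical
  obtain ⟨S, hS, hSf⟩ := Group.fg_iff.1 hfg
  have : Finite S := hSf
  refine ⟨2 * Nat.card S, ?_⟩
  intro E hE
  have hch : ∀ a : A, ∃ N : Subgroup A, N.Normal ∧ N.FiniteIndex ∧ (a ≠ 1 → a ∉ N) := by
    intro a
    by_cases ha : a = 1
    · exact ⟨⊤, inferInstance, inferInstance, fun h => absurd ha h⟩
    · obtain ⟨N, h1, h2, h3⟩ := hres a ha
      exact ⟨N, h1, h2, fun _ => h3⟩
  choose N hN1 hN2 hN3 using hch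
  let L : Subgroup A := ⨅ a : E, N a
  have hL1 : L.Normal := Subgroup.normal_iInf_normal (fun a : E => hN1 a)
  have hL2 : L.FiniteIndex := Subgroup.finiteIndex_iInf (fun a : E => hN2 a)
  have hL3 : ∀ g ∈ E, g ∉ L := by
    intro g hg hgL
    have h1 : L ≤ N g := iInf_le (fun a : E => N a) ⟨g, hg⟩
    refine hN3 g ?_ (h1 hgL)
    rintro rfl
    exact hE hg
  have hinj := der_inj S hS (M := Fm L)
  have hfin : Finite {δ : A → Fm L // IsDer δ} := Finite.of_injective _ hinj
  refine ⟨Fm L, inferInstance, inferInstance, inferInstance, inferInstance,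
    fun g hg => fix_card L g (hL3 g hg), hfin, ?_⟩
  have h2 := Nat.card_le_card_of_injective _ hinj
  rw [Nat.card_fun] at h2
  rw [mul_comm 2, pow_mul]
  exact Nat.pow_le_pow_left h2 2

end Pool.Agent.Helper13.RKB
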